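import Pool.Agent.W172.WL.Stm

/-!
# The Weierstrass function of a Lipschitz function is Hoelder (part HOL of project WL)
-/

set_option autoImplicit false

open Set

namespace Pool.Agent.W250.WLHol

open Pool.Agent.W172.WL

theorem hol : S_HOL := by
  intro b α hb h0 h1 g hg
  obtain ⟨M, hM⟩ := hg.bdd
  obtain ⟨K, hK0, hK⟩ := hg.lip
  have hM0 : 0 ≤ M := (abs_nonneg _).trans (hM 0)
  have hb1 : (1 : ℝ) < b := by exact_mod_cast hb
  have hb0 : (0 : ℝ) < b := by linarith
  set ρ : ℝ := (b : ℝ) ^ (-α) with hρ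
  have hρ0 : 0 < ρ := Real.rpow_pos_of_pos hb0 _
  have hρ1 : ρ < 1 := Real.rpow_lt_one_of_one_lt_of_neg hb1 (by linarith)
  have hterm : ∀ k : ℕ, (b : ℝ) ^ (-(α * k)) = ρ ^ k := by
    intro k
    rw [hρ, ← Real.rpow_mul_natCast hb0.le]
    congr 1; ring
  have hW : ∀ x, W b α g x = ∑' k : ℕ, ρ ^ k * g ((b : ℝ) ^ k * x) := by
    intro x
    unfold W
    exact tsum_congr fun k => by rw [hterm]
  have hgeo : Summable fun k : ℕ => ρ ^ k * M :=
    (summable_geometric_of_lt_one hρ0.le hρ1).mul_right M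
  have hbd : ∀ x k, ‖ρ ^ k * g ((b : ℝ) ^ k * x)‖ ≤ ρ ^ k * M := by
    intro x k
    rw [norm_mul, Real.norm_of_nonneg (pow_nonneg hρ0.le k), Real.norm_eq_abs]
    exact mul_le_mul_of_nonneg_left (hM _) (pow_nonneg hρ0.le k)
  have hsum : ∀ x, Summable fun k : ℕ => ρ ^ k * g ((b : ℝ) ^ k * x) := fun x =>
    Summable.of_norm_bounded hgeo (hbd x)
  -- bound
  set B : ℝ := ∑' k : ℕ, ρ ^ k * M with hB
  have hWB : ∀ x, |W b α g x| ≤ B := by
    intro x
    rw [hW, ← Real.norm_eq_abs]
    exact tsum_of_norm_bounded hgeo.hasSum (hbd x)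
  have hB0 : 0 ≤ B := (abs_nonneg _).trans (hWB 0)
  -- functional equation
  have hfe : ∀ x, W b α g x = g x + ρ * W b α g (b * x) := by
    intro x
    rw [hW x, (hsum x).tsum_eq_zero_add, hW (b * x), ← tsum_mul_left]
    simp only [pow_zero, one_mul]
    congr 1
    refine tsum_congr fun k => ?_
    rw [pow_succ, pow_succ]
    ring_nf
  have hstep : ∀ x y, |W b α g x - W b α g y| ≤
      K * |x - y| + ρ * |W b α g (b * x) - W b α g (b * y)| := by
    intro x y
    rw [hfe x, hfe y]
    have e : g x + ρ * W b α g (b * x) - (g y + ρ * W b α g (b * y)) =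
      (g x - g y) + ρ * (W b α g (b * x) - W b α g (b * y)) := by ring
    rw [e]
    refine (abs_add_le _ _).trans ?_
    rw [abs_mul, abs_of_pos hρ0]
    exact add_le_add (hK x y) le_rfl
  have h2B : ∀ x y, |W b α g x - W b α g y| ≤ 2 * B := by
    intro x y
    refine (abs_sub _ _).trans ?_
    linarith [hWB x, hWB y]
  set β : ℝ := (b : ℝ) ^ (1 - α) with hβ
  have hβ1 : 1 < β := Real.one_lt_rpow hb1 (by linarith)
  have hβρ : ρ * b = β := by
    rw [hρ, hβ, show (1 - α) = -α + 1 by ring, Real.rpow_add hb0, Real.rpow_one]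
  set C' : ℝ := K / (β - 1) with hC'
  have hC'0 : 0 ≤ C' := div_nonneg hK0 (by linarith)
  have hC'e : K + C' = C' * β := by
    have : C' * (β - 1) = K := by rw [hC']; exact div_mul_cancel₀ _ (by linarith)
    linarith
  set C : ℝ := (b : ℝ) ^ α * (2 * B + C') with hC
  have hbα : 1 ≤ (b : ℝ) ^ α := Real.one_le_rpow hb1.le h0.le
  have hC0 : 2 * B + C' ≤ C := by
    rw [hC]; nlinarith
  have hind : ∀ m : ℕ, ∀ x y, (1 / (b : ℝ)) ^ (m + 1) ≤ |x - y| → |x - y| ≤ 1 →
      |W b α g x - W b α g y| ≤ C * |x - y| ^ α - C' * |x - y| := by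
    intro m
    have base : ∀ x y, 1 / (b : ℝ) ≤ |x - y| → |x - y| ≤ 1 →
      |W b α g x - W b α g y| ≤ C * |x - y| ^ α - C' * |x - y| := by
      intro x y hl hu
      have h3 : (1 / (b : ℝ)) ^ α ≤ |x - y| ^ α :=
        Real.rpow_le_rpow (by positivity) hl h0.le
      have h4 : C * (1 / (b : ℝ)) ^ α = 2 * B + C' := by
        rw [hC, one_div, Real.inv_rpow hb0.le]
        have : (b : ℝ) ^ α ≠ 0 := (Real.rpow_pos_of_pos hb0 _).ne'
        field_simp
      have h5 : C * (1 / (b : ℝ)) ^ α ≤ C * |x - y| ^ α :=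
        mul_le_mul_of_nonneg_left h3 (by linarith)
      have h6 := h2B x y
      have h7 : C' * |x - y| ≤ C' := mul_le_of_le_one_right hC'0 hu
      linarith
    induction m with
    | zero => intro x y hl hu; exact base x y (by simpa using hl) hu
    | succ m ih =>
      intro x y hl hu
      by_cases hc : 1 / (b : ℝ) ≤ |x - y|
      · exact base x y hc hu
      · push Not at hc
        have hd : |b * x - b * y| = b * |x - y| := by
          rw [← mul_sub, abs_mul, abs_of_pos hb0]
        have h3 := ih (b * x) (b * y) (by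
          rw [hd]
          have := mul_le_mul_of_nonneg_left hl hb0.le
          refine le_trans (le_of_eq ?_) this
          rw [pow_succ (1 / (b : ℝ)) (m + 1)]
          field_simp) (by
          rw [hd]
          have := mul_lt_mul_of_pos_left hc hb0
          rw [mul_one_div_cancel hb0.ne'] at this
          exact this.le)
        have h4 := hstep x y
        have h5 : ρ * |W b α g (b * x) - W b α g (b * y)| ≤
            ρ * (C * |b * x - b * y| ^ α - C' * |b * x - b * y|) :=
          mul_le_mul_of_nonneg_left h3 hρ0.le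
        have h6 : ρ * (C * |b * x - b * y| ^ α - C' * |b * x - b * y|) =
            C * |x - y| ^ α - C' * β * |x - y| := by
          rw [hd, Real.mul_rpow hb0.le (abs_nonneg _), ← hβρ]
          have : ρ * (b : ℝ) ^ α = 1 := by
            rw [hρ, ← Real.rpow_add hb0]; simp
          calc ρ * (C * ((b : ℝ) ^ α * |x - y| ^ α) - C' * (b * |x - y|))
              = (ρ * (b : ℝ) ^ α) * (C * |x - y| ^ α) - C' * (ρ * b) * |x - y| := by ring
            _ = _ := by rw [this, one_mul]
        have h7 : K * |x - y| + C' * |x - y| = C' * β * |x - y| := by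
          rw [← hC'e]; ring
        linarith
  refine ⟨C, fun x y => ?_⟩
  rcases eq_or_lt_of_le (abs_nonneg (x - y)) with hz | hz
  · have : x = y := by
      have := abs_eq_zero.1 hz.symm
      linarith
    rw [this]; simp [Real.zero_rpow h0.ne']
  · rcases le_or_gt (|x - y|) 1 with hu | hu
    · obtain ⟨m, hm⟩ := exists_pow_lt_of_lt_one hz (y := 1 / (b : ℝ))
        (by rw [div_lt_one hb0]; exact hb1)
      have h3 := hind m x y (by
        refine le_trans ?_ hm.le
        rw [pow_succ]
        refine mul_le_of_le_one_right (by positivity) ?_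
        rw [div_le_one hb0]; exact hb1.le) hu
      have : 0 ≤ C' * |x - y| := mul_nonneg hC'0 hz.le
      linarith
    · have h3 : 1 ≤ |x - y| ^ α := Real.one_le_rpow hu.le h0.le
      have h4 := h2B x y
      nlinarith

end Pool.Agent.W250.WLHol
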